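import Mathlib

/-! # Spheres of finite dimensional real normed spaces of dimension at least three are simply
connected -/

set_option autoImplicit false

open Metric Set

namespace Pool.Agent.H.MP_5f9601_gt

variable {E : Type*} [NormedAddCommGroup E] [NormedSpace ℝ E]

/-- normalisation of a nonzero vector -/
noncomputable def nrm (v : E) (h : v ≠ 0) : sphere (0 : E) 1 :=
  ⟨‖v‖⁻¹ • v, by
    rw [mem_sphere_zero_iff_norm, norm_smul, norm_inv, norm_norm,
      inv_mul_cancel₀ (norm_ne_zero_iff.2 h)]⟩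

@[simp] lemma coe_nrm (v : E) (h : v ≠ 0) : (nrm v h : E) = ‖v‖⁻¹ • v := rfl

lemma nrm_sphere (x : sphere (0 : E) 1) (h : (x : E) ≠ 0) : nrm (x : E) h = x := by
  apply Subtype.ext
  have : ‖(x : E)‖ = 1 := mem_sphere_zero_iff_norm.1 x.2
  simp [this]

lemma norm_coe (x : sphere (0 : E) 1) : ‖(x : E)‖ = 1 := mem_sphere_zero_iff_norm.1 x.2

/-- a segment between two non-antipodal points of the sphere does not contain `0` -/
lemma seg_ne_zero {a b : E} (ha : ‖a‖ = 1) (hb : ‖b‖ = 1) (h : a ≠ -b) {s : ℝ}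
    (hs : s ∈ Icc (0 : ℝ) 1) : (1 - s) • a + s • b ≠ 0 := by
  intro h0
  have h1 : (1 - s) • a = -(s • b) := eq_neg_of_add_eq_zero_left h0
  have h2 : ‖(1 - s) • a‖ = ‖s • b‖ := by rw [h1, norm_neg]
  rw [norm_smul, norm_smul, ha, hb, mul_one, mul_one, Real.norm_eq_abs, Real.norm_eq_abs,
    abs_of_nonneg (by linarith [hs.2]), abs_of_nonneg hs.1] at h2
  have h3 : s = 1 / 2 := by linarith
  subst h3
  apply h
  have h4 : (1 / 2 : ℝ) • a = (1 / 2 : ℝ) • (-b) := by
    rw [smul_neg, ← h1]; norm_num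
  exact smul_right_injective E (by norm_num : (1 / 2 : ℝ) ≠ 0) h4

/-- two maps to the sphere which are nowhere antipodal are homotopic, relative to the set where
they agree -/
theorem homotopicRel_of_not_antipodal {X : Type*} [TopologicalSpace X]
    (f g : C(X, sphere (0 : E) 1)) (h : ∀ x, (f x : E) ≠ -(g x : E)) (S : Set X)
    (hS : ∀ x ∈ S, f x = g x) : f.HomotopicRel g S := by
  have hne : ∀ z : unitInterval × X,
      (1 - (z.1 : ℝ)) • (f z.2 : E) + (z.1 : ℝ) • (g z.2 : E) ≠ 0 := fun z =>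
    seg_ne_zero (norm_coe _) (norm_coe _) (h z.2) z.1.2
  have hc : Continuous fun z : unitInterval × X =>
      (1 - (z.1 : ℝ)) • (f z.2 : E) + (z.1 : ℝ) • (g z.2 : E) := by fun_prop
  refine ⟨⟨⟨⟨fun z => nrm _ (hne z), ?_⟩, ?_, ?_⟩, ?_⟩⟩
  · apply Continuous.subtype_mk
    exact (hc.norm.inv₀ fun z => norm_ne_zero_iff.2 (hne z)).smul hc
  · intro x
    apply Subtype.ext
    simp [norm_coe]
  · intro x
    apply Subtype.ext
    simp [norm_coe]
  · intro s x hx
    apply Subtype.ext
    have h1 : (g x : E) = f x := by rw [hS x hx]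
    simp only [ContinuousMap.coe_mk, coe_nrm, h1]
    rw [← add_smul, sub_add_cancel, one_smul, norm_coe, inv_one, one_smul]

/-- the sphere without a point -/
abbrev Pun (v : sphere (0 : E) 1) : Type _ := {y : sphere (0 : E) 1 // y ≠ v}

lemma coe_ne_zero (v : sphere (0 : E) 1) : (v : E) ≠ 0 := by
  intro h; have := norm_coe v; rw [h, norm_zero] at this; exact zero_ne_one this

lemma neg_ne_self (v : sphere (0 : E) 1) : -v ≠ v := by
  intro h
  have h1 : (-(v : E)) = v := congrArg Subtype.val h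
  apply coe_ne_zero v
  have h2 : (2 : ℝ) • (v : E) = 0 := by rw [two_smul]; nth_rewrite 1 [← h1]; simp
  exact (smul_eq_zero.1 h2).resolve_left (by norm_num)

/-- the sphere without a point is contractible -/
instance contractible_compl (v : sphere (0 : E) 1) : ContractibleSpace (Pun v) := by
  have hne : ∀ z : unitInterval × Pun v,
      (1 - (z.1 : ℝ)) • (z.2.1 : E) + (z.1 : ℝ) • (-(v : E)) ≠ 0 := by
    intro z
    refine seg_ne_zero (norm_coe _) (by rw [norm_neg]; exact norm_coe v) ?_ z.1.2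
    intro h
    apply z.2.2
    apply Subtype.ext
    rw [h, neg_neg]
  have hc : Continuous fun z : unitInterval × Pun v =>
      (1 - (z.1 : ℝ)) • (z.2.1 : E) + (z.1 : ℝ) • (-(v : E)) := by fun_prop
  have hmiss : ∀ z : unitInterval × Pun v, nrm _ (hne z) ≠ v := by
    intro z h
    have h1 := congrArg Subtype.val h
    rw [coe_nrm] at h1
    obtain ⟨c, hc0, hcdef⟩ : ∃ c : ℝ, 0 < c ∧
        c = ‖(1 - (z.1 : ℝ)) • (z.2.1 : E) + (z.1 : ℝ) • (-(v : E))‖ :=
      ⟨_, norm_pos_iff.2 (hne z), rfl⟩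
    rw [← hcdef] at h1
    have h3 : (1 - (z.1 : ℝ)) • (z.2.1 : E) + (z.1 : ℝ) • (-(v : E)) = c • (v : E) := by
      have h1' := congrArg (fun w => c • w) h1
      simp only [smul_smul, mul_inv_cancel₀ hc0.ne', one_smul] at h1'
      exact h1'
    have h2 : (1 - (z.1 : ℝ)) • (z.2.1 : E) = (c + z.1) • (v : E) := by
      rw [add_smul, ← h3, smul_neg]; abel
    have hz0 := z.1.2.1
    have hz1 := z.1.2.2
    have h4 : (1 - (z.1 : ℝ)) = c + z.1 := by
      have h5 := congrArg norm h2
      rwa [norm_smul, norm_smul, norm_coe, norm_coe, mul_one, mul_one, Real.norm_eq_abs,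
        Real.norm_eq_abs, abs_of_nonneg (by linarith), abs_of_nonneg (by linarith)] at h5
    rw [h4] at h2
    have h6 : (c + (z.1 : ℝ)) ≠ 0 := by linarith
    exact z.2.2 (Subtype.ext (smul_right_injective E h6 h2))
  rw [contractible_iff_id_nullhomotopic]
  refine ⟨⟨-v, neg_ne_self v⟩, ⟨⟨⟨fun z => ⟨nrm _ (hne z), hmiss z⟩, ?_⟩, ?_, ?_⟩⟩⟩
  · apply Continuous.subtype_mk
    apply Continuous.subtype_mk
    exact (hc.norm.inv₀ fun z => norm_ne_zero_iff.2 (hne z)).smul hc
  · intro x
    apply Subtype.ext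
    apply Subtype.ext
    simp [norm_coe]
  · intro x
    apply Subtype.ext
    apply Subtype.ext
    simp [norm_coe]

/-- a loop which misses a point is null-homotopic -/
theorem null_of_miss {x : sphere (0 : E) 1} (γ : Path x x) (v : sphere (0 : E) 1)
    (h : ∀ t, γ t ≠ v) : γ.Homotopic (Path.refl x) := by
  have hx : x ≠ v := by have := h 0; rwa [γ.source] at this
  let γ' : Path (⟨x, hx⟩ : Pun v) ⟨x, hx⟩ :=
    { toFun := fun t => ⟨γ t, h t⟩
      continuous_toFun := by fun_prop
      source' := by simp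
      target' := by simp }
  have h1 : γ'.Homotopic (Path.refl _) := SimplyConnectedSpace.paths_homotopic _ _
  have h2 := h1.map (⟨Subtype.val, continuous_subtype_val⟩ : C(Pun v, sphere (0 : E) 1))
  exact h2

variable [FiniteDimensional ℝ E]

/-- polynomial approximation of a continuous map from `[0,1]` to `E` -/
theorem exists_contDiff_near (γ : C(unitInterval, E)) {ε : ℝ} (hε : 0 < ε) :
    ∃ Q : ℝ → E, ContDiff ℝ 1 Q ∧ ∀ t : unitInterval, ‖Q t - γ t‖ < ε := by
  let b := Module.finBasis ℝ E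
  set M : ℝ := ∑ i, ‖b i‖ with hM
  have hM0 : 0 ≤ M := Finset.sum_nonneg fun i _ => norm_nonneg _
  have hδ : 0 < ε / (M + 1) := by positivity
  let g : ℝ → E := fun t => γ (Set.projIcc 0 1 zero_le_one t)
  have hg : Continuous g := γ.continuous.comp continuous_projIcc
  have hb : ∀ i, Continuous fun v : E => b.coord i v := fun i =>
    (b.coord i).continuous_of_finiteDimensional
  have hp : ∀ i, ∃ q : Polynomial ℝ, ∀ x ∈ Set.Icc (0 : ℝ) 1,
      |q.eval x - b.coord i (g x)| < ε / (M + 1) := fun i =>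
    exists_polynomial_near_of_continuousOn 0 1 (fun t => b.coord i (g t))
      ((hb i).comp hg).continuousOn _ hδ
  choose q hq using hp
  refine ⟨fun t => ∑ i, (q i).eval t • b i, ?_, ?_⟩
  · apply ContDiff.sum
    intro i _
    exact (by simpa using Polynomial.contDiff_aeval (𝕜 := ℝ) (q i) 1 :
      ContDiff ℝ 1 fun t : ℝ => (q i).eval t).smul contDiff_const
  · intro t
    have h1 : γ t = ∑ i, b.coord i (g t) • b i := by
      have h2 : γ t = g t := by simp [g]
      rw [h2]
      exact (b.sum_repr (g t)).symm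
    rw [h1, ← Finset.sum_sub_distrib]
    have h3 : ∀ i, (q i).eval (t : ℝ) • b i - b.coord i (g t) • b i
        = ((q i).eval (t : ℝ) - b.coord i (g t)) • b i := fun i => by rw [sub_smul]
    calc ‖∑ i, ((q i).eval (t : ℝ) • b i - b.coord i (g t) • b i)‖
        ≤ ∑ i, ‖(q i).eval (t : ℝ) • b i - b.coord i (g t) • b i‖ := norm_sum_le _ _
      _ ≤ ∑ i, ε / (M + 1) * ‖b i‖ := by
          apply Finset.sum_le_sum
          intro i _
          rw [h3, norm_smul, Real.norm_eq_abs]
          exact mul_le_mul_of_nonneg_right (hq i t t.2).le (norm_nonneg _)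
      _ = ε / (M + 1) * M := by rw [← Finset.mul_sum]
      _ < ε := by
          rw [div_mul_eq_mul_div, div_lt_iff₀ (by positivity)]
          nlinarith

theorem sphere_simplyConnected (h3 : 2 < Module.finrank ℝ E) :
    SimplyConnectedSpace (sphere (0 : E) 1) := by
  rw [simply_connected_iff_loops_nullhomotopic]
  refine ⟨?_, ?_⟩
  · rw [← isPathConnected_iff_pathConnectedSpace]
    apply isPathConnected_sphere _ _ zero_le_one
    rw [← Module.finrank_eq_rank]
    exact_mod_cast (by omega : 1 < Module.finrank ℝ E)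
  intro x γ
  obtain ⟨Q, hQ, hQγ⟩ := exists_contDiff_near
    ((⟨Subtype.val, continuous_subtype_val⟩ : C(sphere (0 : E) 1, E)).comp γ.toContinuousMap)
    (by norm_num : (0 : ℝ) < 1 / 4)
  have hQγ' : ∀ t : unitInterval, ‖Q t - (γ t : E)‖ < 1 / 4 := hQγ
  let P : ℝ → E := fun t => Q t + ((1 - t) • ((x : E) - Q 0) + t • ((x : E) - Q 1))
  have hP : ContDiff ℝ 1 P := by
    unfold P
    fun_prop
  have hP0 : P 0 = x := by simp [P]
  have hP1 : P 1 = x := by simp [P]
  have hPγ : ∀ t : unitInterval, ‖P t - (γ t : E)‖ < 1 := by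
    intro t
    have e0 : ‖(x : E) - Q 0‖ ≤ 1 / 4 := by
      have := hQγ' 0
      rw [γ.source] at this
      rw [norm_sub_rev]; exact this.le
    have e1 : ‖(x : E) - Q 1‖ ≤ 1 / 4 := by
      have := hQγ' 1
      rw [γ.target] at this
      rw [norm_sub_rev]; exact this.le
    have et := hQγ' t
    have h0 := t.2.1
    have h1 := t.2.2
    have h4 : P t - (γ t : E) = (Q t - (γ t : E)) + ((1 - (t : ℝ)) • ((x : E) - Q 0)
        + (t : ℝ) • ((x : E) - Q 1)) := by simp only [P]; abel
    rw [h4]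
    have h5 : ‖(1 - (t : ℝ)) • ((x : E) - Q 0)‖ ≤ 1 / 4 := by
      rw [norm_smul, Real.norm_eq_abs, abs_of_nonneg (by linarith)]
      nlinarith [norm_nonneg ((x : E) - Q 0)]
    have h6 : ‖(t : ℝ) • ((x : E) - Q 1)‖ ≤ 1 / 4 := by
      rw [norm_smul, Real.norm_eq_abs, abs_of_nonneg h0]
      nlinarith [norm_nonneg ((x : E) - Q 1)]
    have h7 := norm_add_le (Q t - (γ t : E)) ((1 - (t : ℝ)) • ((x : E) - Q 0)
        + (t : ℝ) • ((x : E) - Q 1))
    have h8 := norm_add_le ((1 - (t : ℝ)) • ((x : E) - Q 0)) ((t : ℝ) • ((x : E) - Q 1))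
    linarith
  have hPne : ∀ t : unitInterval, P t ≠ 0 := by
    intro t h
    have h9 := hPγ t
    rw [h, zero_sub, norm_neg, norm_coe] at h9
    exact lt_irrefl _ h9
  have hPc : Continuous fun t : unitInterval => P t := hP.continuous.comp continuous_subtype_val
  let γ' : Path x x :=
    { toFun := fun t => nrm (P t) (hPne t)
      continuous_toFun := by
        apply Continuous.subtype_mk
        exact (hPc.norm.inv₀ fun z => norm_ne_zero_iff.2 (hPne z)).smul hPc
      source' := by
        apply Subtype.ext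
        simp [hP0, norm_coe]
      target' := by
        apply Subtype.ext
        simp [hP1, norm_coe] }
  have hh : γ.Homotopic γ' := by
    apply homotopicRel_of_not_antipodal γ.toContinuousMap γ'.toContinuousMap
    · intro t h
      have h10 : (γ t : E) = -(‖P t‖⁻¹ • P t) := h
      have hp := norm_pos_iff.2 (hPne t)
      have h11 : P t = -(‖P t‖ • (γ t : E)) := by
        rw [h10, smul_neg, neg_neg, smul_smul, mul_inv_cancel₀ hp.ne', one_smul]
      have h12 : P t - (γ t : E) = (-(‖P t‖ + 1)) • (γ t : E) := by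
        rw [neg_smul, add_smul, one_smul]
        nth_rewrite 1 [h11]
        abel
      have h13 := hPγ t
      rw [h12, norm_smul, norm_coe, mul_one, Real.norm_eq_abs, abs_neg,
        abs_of_pos (by linarith)] at h13
      linarith
    · intro t ht
      rcases ht with rfl | rfl
      · simp
      · simp
  refine hh.trans ?_
  -- a missed point
  have hΦ : ContDiff ℝ 1 fun z : ℝ × ℝ => z.2 • P z.1 := by fun_prop
  have hd := hΦ.dense_compl_range_of_finrank_lt_finrank (by simpa using h3)
  obtain ⟨u, hu⟩ := hd.nonempty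
  have hu0 : u ≠ 0 := by
    rintro rfl
    exact hu ⟨(0, 0), by simp⟩
  apply null_of_miss γ' (nrm u hu0)
  intro t h
  have h14 : ‖P t‖⁻¹ • P t = ‖u‖⁻¹ • u := congrArg Subtype.val h
  apply hu
  refine ⟨((t : ℝ), ‖u‖ * ‖P t‖⁻¹), ?_⟩
  simp only
  rw [mul_smul, h14, smul_smul, mul_inv_cancel₀ (norm_ne_zero_iff.2 hu0), one_smul]

end Pool.Agent.H.MP_5f9601_gt
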