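import Pool.Agent.H.MP_5f9601_gt.Fin.Lens

/-! # Final assembly: from equivariant maps of spheres to the frozen statement `S13261`

`EqMap p k a b`: there is a continuous map `S^{2a-1} → S^{2b-1}` which sends multiplication by the
primitive root of unity of order `p^(k+1)` to multiplication by the one of order `p^k`.

`KeyMaps p`: such maps exist for `a ≤ p b - C (k+1) b^(2/3)`. -/

set_option autoImplicit false

open Metric Set Topology

namespace Pool.Agent.H.MP_5f9601_gt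

/-- existence of a continuous map of spheres which sends the multiplication by the primitive root
of unity of order `m'` to the multiplication by the one of order `m` -/
def EqG (m m' a b : ℕ) : Prop :=
  ∃ F : C(Sp a, Sp b), ∀ x y : Sp a,
    (y : EuclideanSpace ℂ (Fin a)) = zet m' • (x : EuclideanSpace ℂ (Fin a)) →
    (F y : EuclideanSpace ℂ (Fin b)) = zet m • (F x : EuclideanSpace ℂ (Fin b))

/-- existence of an equivariant map `S(a L) → S(b L^p)` for the group `ℤ/p^(k+1)` -/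
def EqMap (p k a b : ℕ) : Prop := EqG (p ^ k) (p ^ (k + 1)) a b

/-- the form of the main theorem used in the assembly: loss `C (k+1) b^(2/3)` -/
def KeyMaps (p : ℕ) : Prop :=
  ∃ C : ℕ, ∀ k a b s : ℕ, b ≤ s ^ 3 → a + C * (k + 1) * s ^ 2 ≤ p * b → EqMap p k a b

lemma EqG.comp {m m' m'' a b c : ℕ} (h1 : EqG m' m'' a b) (h2 : EqG m m' b c) :
    EqG m m'' a c := by
  obtain ⟨F, hF⟩ := h1
  obtain ⟨G, hG⟩ := h2
  exact ⟨G.comp F, fun x y h => hG _ _ (hF _ _ h)⟩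

/-- three consecutive steps -/
lemma eq3 {p C : ℕ} (hp : 3 ≤ p)
    (hkey : ∀ k a b s : ℕ, b ≤ s ^ 3 → a + C * (k + 1) * s ^ 2 ≤ p * b → EqMap p k a b)
    (k a b s : ℕ) (hs : p ^ 2 * b ≤ s ^ 3)
    (h : a + C * (k + 3) * (p ^ 2 + p + 1) * s ^ 2 ≤ p ^ 3 * b) :
    EqG (p ^ k) (p ^ (k + 3)) a b := by
  set L := C * (k + 3) * s ^ 2 with hL
  have hL1 : C * (k + 1) * s ^ 2 ≤ L :=
    Nat.mul_le_mul_right _ (Nat.mul_le_mul_left _ (by omega))
  have hL2 : C * (k + 1 + 1) * s ^ 2 ≤ L :=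
    Nat.mul_le_mul_right _ (Nat.mul_le_mul_left _ (by omega))
  have hL3 : C * (k + 2 + 1) * s ^ 2 ≤ L := le_of_eq rfl
  have h' : a + L * (p ^ 2 + p + 1) ≤ p ^ 3 * b := by
    refine le_trans (le_of_eq ?_) h
    rw [hL]; ring
  have hp0 : 0 < p := by omega
  have q1 : L ≤ p * b := by
    have : p ^ 2 * L ≤ p ^ 2 * (p * b) := by nlinarith [Nat.zero_le (L * p)]
    exact Nat.le_of_mul_le_mul_left this (by positivity)
  obtain ⟨b1, hb1⟩ := Nat.exists_eq_add_of_le q1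
  have q2 : L ≤ p * b1 := by
    have e : p ^ 2 * b = p * L + p * b1 := by
      calc p ^ 2 * b = p * (p * b) := by ring
        _ = p * (L + b1) := by rw [hb1]
        _ = _ := by ring
    have e2 : p ^ 3 * b = p * (p * L) + p * (p * b1) := by
      calc p ^ 3 * b = p * (p ^ 2 * b) := by ring
        _ = p * (p * L + p * b1) := by rw [e]
        _ = _ := by ring
    have : p * L ≤ p * (p * b1) := by nlinarith
    exact Nat.le_of_mul_le_mul_left this hp0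
  obtain ⟨b2, hb2⟩ := Nat.exists_eq_add_of_le q2
  have q3 : a + L ≤ p * b2 := by
    have e2 : p ^ 3 * b = p ^ 2 * L + p * L + p * b2 := by
      calc p ^ 3 * b = p ^ 2 * (p * b) := by ring
        _ = p ^ 2 * (L + b1) := by rw [hb1]
        _ = p ^ 2 * L + p * (p * b1) := by ring
        _ = p ^ 2 * L + p * (L + b2) := by rw [hb2]
        _ = _ := by ring
    nlinarith
  have c0 : b ≤ s ^ 3 := le_trans (Nat.le_mul_of_pos_left b (by positivity)) hs
  have c1 : b1 ≤ s ^ 3 := by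
    refine le_trans ?_ hs
    calc b1 ≤ p * b := by omega
      _ ≤ p ^ 2 * b := Nat.mul_le_mul_right _ (Nat.le_self_pow (by norm_num) p)
  have c2 : b2 ≤ s ^ 3 := by
    refine le_trans ?_ hs
    calc b2 ≤ p * b1 := by omega
      _ ≤ p * (p * b) := Nat.mul_le_mul_left _ (by omega)
      _ = p ^ 2 * b := by ring
  have m1 : EqMap p k b1 b := hkey k b1 b s c0 (by omega)
  have m2 : EqMap p (k + 1) b2 b1 := hkey (k + 1) b2 b1 s c1 (by omega)
  have m3 : EqMap p (k + 2) a b2 := hkey (k + 2) a b2 s c2 (by omega)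
  exact (EqG.comp m3 m2).comp m1

/-- the composites -/
noncomputable def gg (n : ℕ → ℕ) (f : ∀ i : ℕ, C(Sp (n (i + 1)), Sp (n i))) (i : ℕ) :
    ∀ j : ℕ, C(Sp (n (i + j)), Sp (n i))
  | 0 => ContinuousMap.id _
  | j + 1 => (gg n f i j).comp (f (i + j))

/-- the arithmetic of the dimensions `n_i = p^(3i) + D (2p^2)^i` -/
lemma arith (p C : ℕ) (hp : 3 ≤ p) : ∃ D S : ℕ, 1 ≤ D ∧ ∀ i : ℕ,
    p ^ 2 * (p ^ (3 * i) + D * (2 * p ^ 2) ^ i) ≤ (S * p ^ (i + 1)) ^ 3 ∧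
    (p ^ (3 * (i + 1)) + D * (2 * p ^ 2) ^ (i + 1) + 1) +
      C * (3 * i + 3) * (p ^ 2 + p + 1) * (S * p ^ (i + 1)) ^ 2 ≤
        p ^ 3 * (p ^ (3 * i) + D * (2 * p ^ 2) ^ i) := by
  set c := p ^ 2 + p + 1 with hc
  set S := 3 * C * c + 2 with hS
  set D := 3 * C * c * S ^ 2 + 1 with hD
  have hp0 : 0 < p := by omega
  refine ⟨D, S, by omega, fun i => ⟨?_, ?_⟩⟩
  · have h1 : (2 * p ^ 2) ^ i ≤ p ^ (3 * i) := by
      rw [pow_mul]
      exact Nat.pow_le_pow_left (by nlinarith [pow_pos hp0 2]) i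
    have h2 : 1 + D ≤ S ^ 3 := by
      have : S ^ 3 = S ^ 2 * (3 * C * c + 2) := by rw [pow_succ, ← hS]
      have hS1 : 1 ≤ S ^ 2 := Nat.one_le_pow _ _ (by omega)
      rw [hD]
      nlinarith
    calc p ^ 2 * (p ^ (3 * i) + D * (2 * p ^ 2) ^ i)
        ≤ p ^ 2 * (p ^ (3 * i) + D * p ^ (3 * i)) := by gcongr
      _ = (1 + D) * p ^ (3 * i + 2) := by ring
      _ ≤ S ^ 3 * p ^ (3 * i + 3) :=
          Nat.mul_le_mul h2 (Nat.pow_le_pow_right hp0 (by omega))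
      _ = (S * p ^ (i + 1)) ^ 3 := by ring
  · have hi : i + 1 ≤ 2 ^ i := Nat.lt_two_pow_self
    have h1 : 3 * C * c * S ^ 2 * (i + 1) * p ^ (2 * i + 2) + 1 ≤ D * 2 ^ i * p ^ (2 * i + 2) := by
      have hq : 1 ≤ p ^ (2 * i + 2) := Nat.one_le_pow _ _ hp0
      have h2 : 1 ≤ 2 ^ i := Nat.one_le_two_pow
      calc 3 * C * c * S ^ 2 * (i + 1) * p ^ (2 * i + 2) + 1
          ≤ 3 * C * c * S ^ 2 * 2 ^ i * p ^ (2 * i + 2) + 1 * (2 ^ i * p ^ (2 * i + 2)) := by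
            gcongr
            rw [one_mul]
            exact Nat.mul_pos (by positivity) (by positivity)
        _ = D * 2 ^ i * p ^ (2 * i + 2) := by rw [hD]; ring
    have h3 : D * (2 * p ^ 2) ^ (i + 1) + D * 2 ^ i * p ^ (2 * i + 2) ≤
        p ^ 3 * (D * (2 * p ^ 2) ^ i) := by
      calc D * (2 * p ^ 2) ^ (i + 1) + D * 2 ^ i * p ^ (2 * i + 2)
          = 3 * (D * 2 ^ i * p ^ (2 * i + 2)) := by rw [mul_pow]; ring
        _ ≤ p * (D * 2 ^ i * p ^ (2 * i + 2)) := Nat.mul_le_mul_right _ hp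
        _ = p ^ 3 * (D * (2 * p ^ 2) ^ i) := by rw [mul_pow]; ring
    calc (p ^ (3 * (i + 1)) + D * (2 * p ^ 2) ^ (i + 1) + 1) +
          C * (3 * i + 3) * c * (S * p ^ (i + 1)) ^ 2
        = p ^ (3 * (i + 1)) + D * (2 * p ^ 2) ^ (i + 1) +
          (3 * C * c * S ^ 2 * (i + 1) * p ^ (2 * i + 2) + 1) := by ring
      _ ≤ p ^ (3 * (i + 1)) + D * (2 * p ^ 2) ^ (i + 1) + D * 2 ^ i * p ^ (2 * i + 2) := by
          gcongr
      _ ≤ p ^ (3 * (i + 1)) + p ^ 3 * (D * (2 * p ^ 2) ^ i) := by omega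
      _ = p ^ 3 * (p ^ (3 * i) + D * (2 * p ^ 2) ^ i) := by ring

/-- **Assembly.** -/
theorem assembly (H : ∀ p : ℕ, p.Prime → p ≠ 2 → KeyMaps p) :
  ∀ p : ℕ, p.Prime → p ≠ 2 →
  ∃ (n k : ℕ → ℕ)
    (f : ∀ i : ℕ, C(↥(Metric.sphere (0 : EuclideanSpace ℂ (Fin (n (i+1)))) 1),
                     ↥(Metric.sphere (0 : EuclideanSpace ℂ (Fin (n i))) 1)))
    (q : ∀ i : ℕ,
      C(Quot (fun x y : ↥(Metric.sphere (0 : EuclideanSpace ℂ (Fin (n (i+1)))) 1) =>
            ∃ j : ℕ, (y : EuclideanSpace ℂ (Fin (n (i+1)))) =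
              Complex.exp (2 * (Real.pi : ℂ) * Complex.I / ((p ^ k (i+1) : ℕ) : ℂ)) ^ j •
                (x : EuclideanSpace ℂ (Fin (n (i+1))))),
        Quot (fun x y : ↥(Metric.sphere (0 : EuclideanSpace ℂ (Fin (n i))) 1) =>
            ∃ j : ℕ, (y : EuclideanSpace ℂ (Fin (n i))) =
              Complex.exp (2 * (Real.pi : ℂ) * Complex.I / ((p ^ k i : ℕ) : ℂ)) ^ j •
                (x : EuclideanSpace ℂ (Fin (n i))))))
    (g : ∀ i j : ℕ, C(↥(Metric.sphere (0 : EuclideanSpace ℂ (Fin (n (i+j)))) 1),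
                       ↥(Metric.sphere (0 : EuclideanSpace ℂ (Fin (n i))) 1))),
    Filter.Tendsto k Filter.atTop Filter.atTop ∧
    (∀ i, p ^ (k i - k 0) < n i) ∧
    (∀ i x, q i (Quot.mk _ x) = Quot.mk _ (f i x)) ∧
    (∀ i x (δ : Path (q i x) (q i x)), ∃ γ : Path x x,
        (γ.map (q i).continuous).Homotopic δ) ∧
    (∀ i, g i 0 = ContinuousMap.id _) ∧
    (∀ i j, g i (j+1) = (g i j).comp (f (i+j))) ∧
    (∀ i, ∃ j, ∃ y, (g i j).Homotopic (ContinuousMap.const _ y)) := by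
  intro p hp hp2
  have hp3 : 3 ≤ p := by
    have := hp.two_le
    omega
  obtain ⟨C, hkey⟩ := H p hp hp2
  obtain ⟨D, S, hD1, hD⟩ := arith p C hp3
  let n : ℕ → ℕ := fun i => p ^ (3 * i) + D * (2 * p ^ 2) ^ i
  have hex : ∀ i : ℕ, EqG (p ^ (3 * i)) (p ^ (3 * i + 3)) (n (i + 1) + 1) (n i) := fun i =>
    eq3 hp3 hkey (3 * i) _ _ (S * p ^ (i + 1)) (hD i).1 (hD i).2
  choose F hF using hex
  have hn2 : ∀ i, 2 ≤ n i := by
    intro i
    have h1 : 1 ≤ p ^ (3 * i) := Nat.one_le_pow _ _ (by omega)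
    have h2 : 1 ≤ D * (2 * p ^ 2) ^ i := Nat.mul_pos hD1 (by positivity)
    change 2 ≤ p ^ (3 * i) + D * (2 * p ^ 2) ^ i
    omega
  let f : ∀ i : ℕ, C(Sp (n (i + 1)), Sp (n i)) := fun i => (F i).comp (incl (n (i + 1)))
  have hf : ∀ (i : ℕ) (x y : Sp (n (i + 1))),
      (y : EuclideanSpace ℂ (Fin (n (i + 1)))) = zet (p ^ (3 * (i + 1))) • (x : _) →
      (f i y : EuclideanSpace ℂ (Fin (n i))) = zet (p ^ (3 * i)) • (f i x : _) := by
    intro i x y h
    apply hF i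
    ext j
    refine Fin.lastCases ?_ (fun j => ?_) j
    · rw [PiLp.smul_apply, incl_apply_last, incl_apply_last, smul_zero]
    · rw [PiLp.smul_apply, incl_apply_castSucc, incl_apply_castSucc, h, PiLp.smul_apply]
      rfl
  have hNZ : ∀ i : ℕ, NeZero (p ^ i) := fun i => ⟨pow_ne_zero _ (by omega)⟩
  let q : ∀ i : ℕ, C(Quot (lrel (p ^ (3 * (i + 1))) (n (i + 1))),
      Quot (lrel (p ^ (3 * i)) (n i))) :=
    fun i => ⟨Quot.lift (fun x => Quot.mk _ (f i x)) (fun x y ⟨j, hj⟩ =>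
      Quot.sound ⟨j, equiv_pow (NeZero.ne _) (f i) (hf i) j x y hj⟩),
      continuous_quot_lift _ (continuous_quot_mk.comp (f i).continuous)⟩
  refine ⟨n, fun i => 3 * i, f, q, gg n f, ?_, ?_, fun i x => rfl, ?_, fun i => rfl,
    fun i j => rfl, ?_⟩
  · exact Filter.tendsto_id.const_mul_atTop' (by norm_num)
  · intro i
    change p ^ (3 * i - 3 * 0) < p ^ (3 * i) + D * (2 * p ^ 2) ^ i
    have : 0 < D * (2 * p ^ 2) ^ i := Nat.mul_pos hD1 (by positivity)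
    simpa using this
  · intro i x δ
    exact lens_surj (hn2 i) (by have := hn2 (i + 1); omega) (f i) (hf i) (q i)
      (fun _ => rfl) x δ
  · intro i
    refine ⟨1, ?_⟩
    obtain ⟨y, hy⟩ := (incl_null (n (i + 1))).comp_right (F i)
    exact ⟨y, hy⟩

end Pool.Agent.H.MP_5f9601_gt
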