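import Pool.Agent.H.MP_5f9601_gt.Fin.Assembly

/-! # End of section 6: the base map, monotonicity, and the iteration of the step -/

set_option autoImplicit false

open Metric Set Topology

namespace Pool.Agent.H.MP_5f9601_gt

/-- **The step** (delivered by sections 1-6). -/
def Step (p : ℕ) : Prop :=
  ∃ D : ℕ, ∀ k m M w : ℕ, 1 ≤ m → D * (k + 1) * (m + 1) * (p * m) ≤ M →
    EqMap p k M w → EqMap p k (M + p * m) (w + m + k + 1)

/-- the norm preserving power map `z ↦ |z| (z/|z|)^p`, `p = r + 1` -/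
noncomputable def pw (r : ℕ) (z : ℂ) : ℂ := z ^ (r + 1) / ((‖z‖ : ℂ)) ^ r

lemma norm_pw (r : ℕ) (z : ℂ) : ‖pw r z‖ = ‖z‖ := by
  unfold pw
  rcases eq_or_ne z 0 with rfl | h
  · simp
  · have h0 : ‖z‖ ≠ 0 := norm_ne_zero_iff.2 h
    rw [norm_div, norm_pow, norm_pow, Complex.norm_real, norm_norm, pow_succ]
    field_simp

lemma pw_mul (r : ℕ) (c z : ℂ) (hc : ‖c‖ = 1) : pw r (c * z) = c ^ (r + 1) * pw r z := by
  unfold pw
  rw [norm_mul, hc, one_mul, mul_pow, mul_div_assoc]

lemma continuous_pw (r : ℕ) : Continuous (pw r) := by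
  rw [continuous_iff_continuousAt]
  intro z
  rcases eq_or_ne z 0 with rfl | h
  · have h0 : pw r 0 = 0 := by simp [pw]
    rw [ContinuousAt, h0, tendsto_zero_iff_norm_tendsto_zero]
    have : (fun z => ‖pw r z‖) = fun z : ℂ => ‖z‖ := funext (norm_pw r)
    rw [this]
    have := (continuous_norm (E := ℂ)).tendsto 0
    simpa using this
  · unfold pw
    have h1 : ((‖z‖ : ℂ)) ^ r ≠ 0 := pow_ne_zero _ (by exact_mod_cast norm_ne_zero_iff.2 h)
    fun_prop (disch := exact h1)

/-- coordinatewise power map of the spheres -/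
noncomputable def pwS (r n : ℕ) : C(Sp n, Sp n) where
  toFun x := ⟨WithLp.toLp 2 fun i => pw r ((x : EuclideanSpace ℂ (Fin n)) i), by
    have hx := mem_sphere_zero_iff_norm.1 x.2
    rw [mem_sphere_zero_iff_norm, EuclideanSpace.norm_eq]
    rw [EuclideanSpace.norm_eq] at hx
    simpa [norm_pw] using hx⟩
  continuous_toFun := by
    apply Continuous.subtype_mk
    refine (PiLp.continuous_toLp 2 _).comp ?_
    refine continuous_pi fun i => ?_
    exact (continuous_pw r).comp (by fun_prop)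

lemma zet_pow (p k : ℕ) (hp : p ≠ 0) : zet (p ^ (k + 1)) ^ p = zet (p ^ k) := by
  unfold zet
  rw [← Complex.exp_nat_mul]
  congr 1
  have h1 : (p : ℂ) ≠ 0 := by exact_mod_cast hp
  push_cast
  rw [pow_succ]
  field_simp

/-- the base of the iteration -/
lemma base (p k n : ℕ) (hp : p ≠ 0) : EqMap p k n n := by
  obtain ⟨r, rfl⟩ := Nat.exists_eq_succ_of_ne_zero hp
  refine ⟨pwS r n, fun x y h => ?_⟩
  ext i
  rw [PiLp.smul_apply, smul_eq_mul, ← zet_pow (r + 1) k (by omega)]
  have h1 : (y : EuclideanSpace ℂ (Fin n)) i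
      = zet ((r + 1) ^ (k + 1)) * (x : EuclideanSpace ℂ (Fin n)) i := by
    rw [h, PiLp.smul_apply, smul_eq_mul]
  change pw r ((y : EuclideanSpace ℂ (Fin n)) i) = _ * pw r ((x : EuclideanSpace ℂ (Fin n)) i)
  rw [h1, pw_mul]
  have hn : (r + 1) ^ (k + 1) ≠ 0 := pow_ne_zero _ (by omega)
  exact (zet_prim hn).norm'_eq_one hn

lemma incl_equiv {n : ℕ} (c : ℂ) (x y : Sp n)
    (h : (y : EuclideanSpace ℂ (Fin n)) = c • (x : EuclideanSpace ℂ (Fin n))) :
    (incl n y : EuclideanSpace ℂ (Fin (n + 1))) = c • (incl n x : _) := by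
  ext j
  refine Fin.lastCases ?_ (fun j => ?_) j
  · rw [PiLp.smul_apply, incl_apply_last, incl_apply_last, smul_zero]
  · rw [PiLp.smul_apply, incl_apply_castSucc, incl_apply_castSucc, h, PiLp.smul_apply]

lemma EqMap.mono_left {p k a a' b : ℕ} (h : EqMap p k a' b) (ha : a ≤ a') : EqMap p k a b := by
  induction a', ha using Nat.le_induction with
  | base => exact h
  | succ n hn ih =>
    apply ih
    obtain ⟨F, hF⟩ := h
    exact ⟨F.comp (incl n), fun x y e => hF _ _ (incl_equiv _ _ _ e)⟩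

lemma EqMap.mono_right {p k a b b' : ℕ} (h : EqMap p k a b) (hb : b ≤ b') : EqMap p k a b' := by
  induction b', hb using Nat.le_induction with
  | base => exact h
  | succ n hn ih =>
    obtain ⟨F, hF⟩ := ih
    exact ⟨(incl n).comp F, fun x y e => incl_equiv _ _ _ (hF _ _ e)⟩

/-- **End of section 6**: the iteration. -/
theorem keyMaps_of_step {p : ℕ} (hp : 3 ≤ p) (h : Step p) : KeyMaps p := by
  obtain ⟨D, hD⟩ := h
  refine ⟨2 * D * p ^ 2 + 3 * p, fun k a b s hb ha => ?_⟩
  rcases Nat.eq_zero_or_pos s with rfl | hs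
  · have hb0 : b = 0 := by simpa using hb
    subst hb0
    have ha0 : a = 0 := by omega
    subst ha0
    exact base p k 0 (by omega)
  set M := D * (k + 1) * (s + 1) * (p * s) with hM
  have hs2 : s ≤ s ^ 2 := Nat.le_self_pow (by norm_num) s
  have hM2 : M ≤ 2 * D * p * (k + 1) * s ^ 2 := by
    calc M = D * p * (k + 1) * (s ^ 2 + s) := by rw [hM]; ring
      _ ≤ D * p * (k + 1) * (s ^ 2 + s ^ 2) := by gcongr
      _ = 2 * D * p * (k + 1) * s ^ 2 := by ring
  have hpM : p * M ≤ 2 * D * p ^ 2 * (k + 1) * s ^ 2 := by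
    calc p * M ≤ p * (2 * D * p * (k + 1) * s ^ 2) := Nat.mul_le_mul_left _ hM2
      _ = _ := by ring
  have hsk : s + k + 1 ≤ 2 * (k + 1) * s ^ 2 := by nlinarith
  have hbM : M ≤ b := by
    by_contra hlt
    push_neg at hlt
    have h1 : p * b ≤ p * M := Nat.mul_le_mul_left _ hlt.le
    have h2 : 0 < 3 * p * (k + 1) * s ^ 2 := by positivity
    have h3 : (2 * D * p ^ 2 + 3 * p) * (k + 1) * s ^ 2
        = 2 * D * p ^ 2 * (k + 1) * s ^ 2 + 3 * p * (k + 1) * s ^ 2 := by ring
    omega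
  -- iteration
  have hit : ∀ t : ℕ, EqMap p k (M + t * (p * s)) (M + t * (s + k + 1)) := by
    intro t
    induction t with
    | zero => simpa using base p k M (by omega)
    | succ t ih =>
      have := hD k s (M + t * (p * s)) (M + t * (s + k + 1)) hs
        (le_trans (le_of_eq hM.symm) (Nat.le_add_right _ _)) ih
      have e1 : M + (t + 1) * (p * s) = M + t * (p * s) + p * s := by ring
      have e2 : M + (t + 1) * (s + k + 1) = M + t * (s + k + 1) + s + k + 1 := by ring
      rw [e1, e2]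
      exact this
  set t := (b - M) / (s + k + 1) with ht
  have ht1 : t * (s + k + 1) ≤ b - M := Nat.div_mul_le_self _ _
  have ht2 : b - M < (t + 1) * (s + k + 1) := 
    (Nat.div_lt_iff_lt_mul (by omega)).1 (Nat.lt_succ_self _)
  have hts : t ≤ s ^ 2 := by
    have h1 : t * s ≤ s ^ 3 := by
      calc t * s ≤ t * (s + k + 1) := Nat.mul_le_mul_left _ (by omega)
        _ ≤ b - M := ht1
        _ ≤ b := Nat.sub_le _ _
        _ ≤ s ^ 3 := hb
    have h2 : t * s ≤ s ^ 2 * s := by rw [← pow_succ]; exact h1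
    exact Nat.le_of_mul_le_mul_right h2 hs
  refine ((hit t).mono_left ?_).mono_right (by omega)
  have h3 : p * b ≤ p * M + p * ((t + 1) * (s + k + 1)) := by
    rw [← Nat.mul_add]
    exact Nat.mul_le_mul_left _ (by omega)
  have h4 : p * ((t + 1) * (s + k + 1)) = t * (p * s) + p * (k + 1) * t + p * (s + k + 1) := by
    ring
  have h5 : p * (k + 1) * t ≤ p * (k + 1) * s ^ 2 := Nat.mul_le_mul_left _ hts
  have h6 : p * (s + k + 1) ≤ p * (2 * (k + 1) * s ^ 2) := Nat.mul_le_mul_left _ hsk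
  have h7 : (2 * D * p ^ 2 + 3 * p) * (k + 1) * s ^ 2
      = 2 * D * p ^ 2 * (k + 1) * s ^ 2 + p * (k + 1) * s ^ 2 + p * (2 * (k + 1) * s ^ 2) := by
    ring
  omega

end Pool.Agent.H.MP_5f9601_gt
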