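import Pool.Agent.H.MP_5f9601_gt.Fin.SphereSC

/-! # Lens spaces: covering map, surjectivity on fundamental groups, null-homotopic inclusions -/

set_option autoImplicit false

open Metric Set Topology

namespace Pool.Agent.H.MP_5f9601_gt

/-- the unit sphere of `ℂ^n` -/
abbrev Sp (n : ℕ) : Type := ↥(Metric.sphere (0 : EuclideanSpace ℂ (Fin n)) 1)

/-- the standard primitive root of unity -/
noncomputable def zet (m : ℕ) : ℂ :=
  Complex.exp (2 * (Real.pi : ℂ) * Complex.I / ((m : ℕ) : ℂ))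

/-- the relation of the frozen statement -/
def lrel (m n : ℕ) (x y : Sp n) : Prop :=
  ∃ j : ℕ, (y : EuclideanSpace ℂ (Fin n)) = zet m ^ j • (x : EuclideanSpace ℂ (Fin n))

lemma zet_prim {m : ℕ} (hm : m ≠ 0) : IsPrimitiveRoot (zet m) m :=
  Complex.isPrimitiveRoot_exp m hm

lemma norm_root {m : ℕ} (hm : m ≠ 0) (g : rootsOfUnity m ℂ) : ‖((g : ℂˣ) : ℂ)‖ = 1 := by
  have h : ((g : ℂˣ) : ℂ) ^ m = 1 := by
    have := (mem_rootsOfUnity' m (g : ℂˣ)).1 g.2
    exact this
  exact Complex.norm_eq_one_of_pow_eq_one h hm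

/-- the roots of unity act on the sphere -/
noncomputable instance actS (m n : ℕ) [NeZero m] : MulAction (rootsOfUnity m ℂ) (Sp n) where
  smul g x := ⟨((g : ℂˣ) : ℂ) • (x : EuclideanSpace ℂ (Fin n)), by
    rw [mem_sphere_zero_iff_norm, norm_smul, norm_root (NeZero.ne m), one_mul]
    exact mem_sphere_zero_iff_norm.1 x.2⟩
  one_smul x := by
    apply Subtype.ext
    change ((1 : ℂˣ) : ℂ) • (x : EuclideanSpace ℂ (Fin n)) = x
    simp
  mul_smul g h x := by
    apply Subtype.ext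
    change (((g : ℂˣ) * (h : ℂˣ) : ℂˣ) : ℂ) • (x : EuclideanSpace ℂ (Fin n))
      = ((g : ℂˣ) : ℂ) • (((h : ℂˣ) : ℂ) • (x : EuclideanSpace ℂ (Fin n)))
    rw [Units.val_mul, mul_smul]

lemma coe_act {m n : ℕ} [NeZero m] (g : rootsOfUnity m ℂ) (x : Sp n) :
    ((g • x : Sp n) : EuclideanSpace ℂ (Fin n)) = ((g : ℂˣ) : ℂ) • (x : EuclideanSpace ℂ (Fin n)) :=
  rfl

instance contAct (m n : ℕ) [NeZero m] : ContinuousConstSMul (rootsOfUnity m ℂ) (Sp n) where
  continuous_const_smul g := by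
    apply Continuous.subtype_mk
    fun_prop

instance cancelAct (m n : ℕ) [NeZero m] : IsCancelSMul (rootsOfUnity m ℂ) (Sp n) where
  right_cancel' g h x e := by
    have e' : ((g : ℂˣ) : ℂ) • (x : EuclideanSpace ℂ (Fin n)) = ((h : ℂˣ) : ℂ) • (x : _) :=
      congrArg Subtype.val e
    have hx : (x : EuclideanSpace ℂ (Fin n)) ≠ 0 := coe_ne_zero x
    apply Subtype.ext
    apply Units.ext
    exact smul_left_injective ℂ hx e'

lemma lrel_iff {m n : ℕ} [NeZero m] (x y : Sp n) :
    lrel m n x y ↔ y ∈ MulAction.orbit (rootsOfUnity m ℂ) x := by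
  constructor
  · rintro ⟨j, hj⟩
    have hz := zet_prim (NeZero.ne m)
    refine ⟨⟨(hz.isUnit (NeZero.ne m)).unit ^ j, ?_⟩, ?_⟩
    · rw [mem_rootsOfUnity']
      simp only [Units.val_pow_eq_pow_val, IsUnit.unit_spec]
      rw [← pow_mul, mul_comm, pow_mul, hz.pow_eq_one, one_pow]
    · apply Subtype.ext
      rw [hj]
      rfl
  · rintro ⟨g, rfl⟩
    have h : ((g : ℂˣ) : ℂ) ^ m = 1 := (mem_rootsOfUnity' m (g : ℂˣ)).1 g.2
    obtain ⟨j, -, hj⟩ := (zet_prim (NeZero.ne m)).eq_pow_of_pow_eq_one h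
    exact ⟨j, by rw [hj]; rfl⟩

lemma lrel_equiv {m n : ℕ} [NeZero m] : Equivalence (lrel m n) := by
  have h : lrel m n = fun x y => y ∈ MulAction.orbit (rootsOfUnity m ℂ) x := by
    ext x y; exact lrel_iff x y
  rw [h]
  exact ⟨fun x => MulAction.mem_orbit_self x, fun {x y} h => MulAction.mem_orbit_symm.1 h,
    fun {x y z} h1 h2 => by
      have e1 := MulAction.orbit_eq_iff.2 h1
      rw [← e1]; exact h2⟩

lemma mk_eq_iff {m n : ℕ} [NeZero m] (x y : Sp n) :
    Quot.mk (lrel m n) x = Quot.mk (lrel m n) y ↔ lrel m n x y := by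
  rw [Quot.eq, lrel_equiv.eqvGen_iff]

instance locComp (n : ℕ) : LocallyCompactSpace (Sp n) := inferInstance

theorem lens_covering {m n : ℕ} [NeZero m] :
    IsQuotientCoveringMap (Quot.mk (lrel m n)) (rootsOfUnity m ℂ) := by
  haveI : Finite (rootsOfUnity m ℂ) := inferInstance
  refine isQuotientMap_quot_mk.isQuotientCoveringMap_of_properlyDiscontinuousSMul ?_
  intro x y
  rw [mk_eq_iff, lrel_iff, MulAction.mem_orbit_symm]

lemma finrank_eucl (n : ℕ) : Module.finrank ℝ (EuclideanSpace ℂ (Fin n)) = 2 * n := by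
  have h := Module.finrank_mul_finrank ℝ ℂ (EuclideanSpace ℂ (Fin n))
  rw [Complex.finrank_real_complex, finrank_euclideanSpace, Fintype.card_fin] at h
  exact h.symm

instance fdR (n : ℕ) : FiniteDimensional ℝ (EuclideanSpace ℂ (Fin n)) :=
  Module.Finite.trans ℂ _

theorem sp_simplyConnected {n : ℕ} (hn : 2 ≤ n) : SimplyConnectedSpace (Sp n) :=
  sphere_simplyConnected (by rw [finrank_eucl]; omega)

theorem sp_pathConnected {n : ℕ} (hn : 1 ≤ n) : PathConnectedSpace (Sp n) := by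
  rw [← isPathConnected_iff_pathConnectedSpace]
  apply isPathConnected_sphere _ _ zero_le_one
  rw [← Module.finrank_eq_rank, finrank_eucl]
  exact_mod_cast (by omega : 1 < 2 * n)

/-- equivariance passes to powers -/
lemma equiv_pow {m m' n n' : ℕ} (hm' : m' ≠ 0) (f : Sp n' → Sp n)
    (heq : ∀ x y : Sp n', (y : EuclideanSpace ℂ (Fin n')) = zet m' • (x : _) →
      (f y : EuclideanSpace ℂ (Fin n)) = zet m • (f x : _)) (j : ℕ) (x y : Sp n')
    (h : (y : EuclideanSpace ℂ (Fin n')) = zet m' ^ j • (x : _)) :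
    (f y : EuclideanSpace ℂ (Fin n)) = zet m ^ j • (f x : _) := by
  induction j generalizing y with
  | zero => 
    have : y = x := Subtype.ext (by rw [h, pow_zero, one_smul])
    rw [this, pow_zero, one_smul]
  | succ j ih =>
    have hnorm : ‖zet m' ^ j • (x : EuclideanSpace ℂ (Fin n'))‖ = 1 := by
      rw [norm_smul, norm_pow, (zet_prim hm').norm'_eq_one hm', one_pow, one_mul]
      exact mem_sphere_zero_iff_norm.1 x.2
    let z : Sp n' := ⟨zet m' ^ j • (x : EuclideanSpace ℂ (Fin n')),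
      mem_sphere_zero_iff_norm.2 hnorm⟩
    have h1 := ih z rfl
    have h2 := heq z y (by rw [h, pow_succ', mul_smul])
    rw [h2, h1, pow_succ', mul_smul]

/-- **Surjectivity on fundamental groups** of the map of lens spaces induced by an equivariant
map of spheres. -/
theorem lens_surj {m m' n n' : ℕ} [NeZero m] [NeZero m'] (hn : 2 ≤ n) (hn' : 1 ≤ n')
    (f : C(Sp n', Sp n))
    (heq : ∀ x y : Sp n', (y : EuclideanSpace ℂ (Fin n')) = zet m' • (x : _) →
      (f y : EuclideanSpace ℂ (Fin n)) = zet m • (f x : _))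
    (q : C(Quot (lrel m' n'), Quot (lrel m n)))
    (hq : ∀ x, q (Quot.mk _ x) = Quot.mk _ (f x)) (x : Quot (lrel m' n'))
    (δ : Path (q x) (q x)) : ∃ γ : Path x x, (γ.map q.continuous).Homotopic δ := by
  obtain ⟨x0, rfl⟩ := Quot.exists_rep x
  haveI := sp_simplyConnected hn
  haveI := sp_pathConnected hn'
  have cov := (lens_covering (m := m) (n := n)).isCoveringMap
  have hδ0 : δ.toContinuousMap 0 = Quot.mk (lrel m n) (f x0) := by
    rw [← hq]; exact δ.source
  obtain ⟨Δ, hΔ, hΔ0⟩ := cov.exists_path_lifts δ.toContinuousMap (f x0) hδ0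
  have hend : Quot.mk (lrel m n) (f x0) = Quot.mk (lrel m n) (Δ 1) := by
    rw [← hq]
    have h1 : Quot.mk (lrel m n) (Δ 1) = δ 1 := congrFun hΔ 1
    rw [h1, δ.target]
  obtain ⟨j, hj⟩ := (mk_eq_iff _ _).1 hend
  have hnorm : ‖zet m' ^ j • (x0 : EuclideanSpace ℂ (Fin n'))‖ = 1 := by
    rw [norm_smul, norm_pow, (zet_prim (NeZero.ne m')).norm'_eq_one (NeZero.ne m'), one_pow,
      one_mul]
    exact mem_sphere_zero_iff_norm.1 x0.2
  let x1 : Sp n' := ⟨zet m' ^ j • (x0 : EuclideanSpace ℂ (Fin n')),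
    mem_sphere_zero_iff_norm.2 hnorm⟩
  have hx1 : f x1 = Δ 1 := by
    apply Subtype.ext
    rw [hj]
    exact equiv_pow (NeZero.ne m') f heq j x0 x1 rfl
  have hq1 : Quot.mk (lrel m' n') x1 = Quot.mk (lrel m' n') x0 :=
    ((mk_eq_iff _ _).2 ⟨j, rfl⟩).symm
  let Γ : Path x0 x1 := PathConnectedSpace.somePath x0 x1
  let γ : Path (Quot.mk (lrel m' n') x0) (Quot.mk (lrel m' n') x0) :=
    (Γ.map continuous_quot_mk).cast rfl hq1.symm
  refine ⟨γ, ?_⟩
  let P1 : Path (f x0) (f x1) := Γ.map f.continuous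
  let P2 : Path (f x0) (f x1) := ⟨Δ, hΔ0, by rw [hx1]; rfl⟩
  obtain ⟨Hh⟩ : P1.Homotopic P2 := SimplyConnectedSpace.paths_homotopic P1 P2
  have e1 : (γ.map q.continuous).toContinuousMap
      = (⟨Quot.mk (lrel m n), continuous_quot_mk⟩ : C(Sp n, Quot (lrel m n))).comp
        P1.toContinuousMap := by
    ext t
    change q (Quot.mk _ (Γ t)) = Quot.mk _ (f (Γ t))
    exact hq _
  have e2 : δ.toContinuousMap
      = (⟨Quot.mk (lrel m n), continuous_quot_mk⟩ : C(Sp n, Quot (lrel m n))).comp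
        P2.toContinuousMap := by
    ext t
    exact (congrFun hΔ t).symm
  have hr : (γ.map q.continuous).toContinuousMap.HomotopicRel δ.toContinuousMap {0, 1} := by
    rw [e1, e2]
    exact ⟨Hh.compContinuousMap _⟩
  exact hr

/-- the standard inclusion of spheres -/
noncomputable def incl (n : ℕ) : C(Sp n, Sp (n + 1)) where
  toFun x := ⟨WithLp.toLp 2 (Fin.snoc (α := fun _ => ℂ) (x : EuclideanSpace ℂ (Fin n)) 0), by
    have hx := mem_sphere_zero_iff_norm.1 x.2
    rw [mem_sphere_zero_iff_norm, EuclideanSpace.norm_eq, Fin.sum_univ_castSucc]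
    rw [EuclideanSpace.norm_eq] at hx
    simpa using hx⟩
  continuous_toFun := by
    apply Continuous.subtype_mk
    refine (PiLp.continuous_toLp 2 _).comp ?_
    refine continuous_pi fun i => ?_
    refine Fin.lastCases ?_ (fun i => ?_) i
    · simpa using continuous_const
    · simp only [Fin.snoc_castSucc]
      fun_prop

lemma incl_apply_last {n : ℕ} (x : Sp n) :
    (incl n x : EuclideanSpace ℂ (Fin (n + 1))) (Fin.last n) = 0 := by
  simp [incl]

lemma incl_apply_castSucc {n : ℕ} (x : Sp n) (i : Fin n) :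
    (incl n x : EuclideanSpace ℂ (Fin (n + 1))) i.castSucc = (x : EuclideanSpace ℂ (Fin n)) i := by
  simp [incl]

/-- the inclusion is null-homotopic -/
theorem incl_null (n : ℕ) : (incl n).Nullhomotopic := by
  let v : Sp (n + 1) := ⟨EuclideanSpace.single (Fin.last n) 1, by
    rw [mem_sphere_zero_iff_norm]; simp⟩
  have hv : ∀ x, incl n x ≠ v := by
    intro x h
    have h1 := congrArg (fun y : Sp (n + 1) => (y : EuclideanSpace ℂ (Fin (n + 1))) (Fin.last n)) h
    simp only [incl_apply_last] at h1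
    simp [v] at h1
  let a : C(Sp n, Pun v) := ⟨fun x => ⟨incl n x, hv x⟩, by fun_prop⟩
  let b : C(Pun v, Sp (n + 1)) := ⟨Subtype.val, continuous_subtype_val⟩
  have h1 : (ContinuousMap.id (Pun v)).Nullhomotopic := id_nullhomotopic _
  have h2 := (h1.comp_right b).comp_left a
  exact h2

end Pool.Agent.H.MP_5f9601_gt
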