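import Pool.Agent.H.MP_5f9601_gt.Fin.Iter

/-! # The frozen statement from Theorem S of helper47's proof -/

set_option autoImplicit false

open Metric Set Topology

namespace Pool.Agent.H.MP_5f9601_gt

/-- **Theorem S** for the prime `p` (helper47): equivariant maps
`S(p (b + 1 - k) L) → (n + b + 1) L^p ∖ 0` for all `b ≥ k`, with a fixed `n`. -/
def ThmS (p : ℕ) : Prop :=
  ∃ n : ℕ, ∀ k b : ℕ, k ≤ b →
    ∃ φ : Sp (p * (b + 1 - k)) → EuclideanSpace ℂ (Fin (n + b + 1)),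
      Continuous φ ∧ (∀ x, φ x ≠ 0) ∧
      ∀ x y : Sp (p * (b + 1 - k)),
        (y : EuclideanSpace ℂ (Fin (p * (b + 1 - k)))) = zet (p ^ (k + 1)) • (x : _) →
          φ y = zet (p ^ (k + 1)) ^ p • φ x

/-- a nowhere vanishing equivariant map gives a map of spheres -/
lemma EqMap.of_nonzero {p k a b : ℕ} (hp : p ≠ 0)
    (φ : Sp a → EuclideanSpace ℂ (Fin b)) (hc : Continuous φ) (h0 : ∀ x, φ x ≠ 0)
    (he : ∀ x y : Sp a, (y : EuclideanSpace ℂ (Fin a)) = zet (p ^ (k + 1)) • (x : _) →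
      φ y = zet (p ^ (k + 1)) ^ p • φ x) : EqMap p k a b := by
  refine ⟨⟨fun x => nrm (φ x) (h0 x), ?_⟩, ?_⟩
  · apply Continuous.subtype_mk
    exact (hc.norm.inv₀ fun z => norm_ne_zero_iff.2 (h0 z)).smul hc
  · intro x y h
    have h1 := he x y h
    rw [zet_pow p k hp] at h1
    have hz : ‖zet (p ^ k)‖ = 1 :=
      (zet_prim (pow_ne_zero _ hp)).norm'_eq_one (pow_ne_zero _ hp)
    change ‖φ y‖⁻¹ • φ y = zet (p ^ k) • (‖φ x‖⁻¹ • φ x)
    rw [h1, norm_smul, hz, one_mul, smul_comm]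

theorem keyMaps_of_thmS {p : ℕ} (hp : 3 ≤ p) (h : ThmS p) : KeyMaps p := by
  obtain ⟨n, hn⟩ := h
  refine ⟨p * (n + 1), fun k a b s hb ha => ?_⟩
  rcases Nat.eq_zero_or_pos s with rfl | hs
  · have hb0 : b = 0 := by simpa using hb
    subst hb0
    have ha0 : a = 0 := by omega
    subst ha0
    exact base p k 0 (by omega)
  have h1 : p * (n + 1) * (k + 1) ≤ p * (n + 1) * (k + 1) * s ^ 2 :=
    Nat.le_mul_of_pos_right _ (by positivity)
  have h2 : a + p * ((n + 1) * (k + 1)) ≤ p * b := by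
    rw [← mul_assoc]; omega
  have h3 : (n + 1) * (k + 1) ≤ b := by
    have : p * ((n + 1) * (k + 1)) ≤ p * b := by omega
    exact Nat.le_of_mul_le_mul_left this (by omega)
  have h4 : n + k + 1 ≤ (n + 1) * (k + 1) := by nlinarith
  obtain ⟨c, rfl⟩ : ∃ c, b = n + c + 1 := ⟨b - n - 1, by omega⟩
  have hkc : k ≤ c := by omega
  obtain ⟨φ, f1, f2, f3⟩ := hn k c hkc
  refine (EqMap.of_nonzero (by omega) φ f1 f2 f3).mono_left ?_
  have h5 : a + p * (n + k + 1) ≤ p * (n + c + 1) :=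
    le_trans (Nat.add_le_add_left (Nat.mul_le_mul_left _ h4) _) h2
  have h6 : p * (c + 1 - k) + p * (n + k + 1) = p * (n + c + 1) + p := by
    rw [← Nat.mul_add]
    have : c + 1 - k + (n + k + 1) = n + c + 1 + 1 := by omega
    rw [this]; ring
  omega

/-- **The frozen statement from Theorem S.** -/
theorem main_of_thmS (H : ∀ p : ℕ, p.Prime → p ≠ 2 → ThmS p) :
  ∀ p : ℕ, p.Prime → p ≠ 2 →
  ∃ (n k : ℕ → ℕ)
    (f : ∀ i : ℕ, C(↥(Metric.sphere (0 : EuclideanSpace ℂ (Fin (n (i+1)))) 1),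
                     ↥(Metric.sphere (0 : EuclideanSpace ℂ (Fin (n i))) 1)))
    (q : ∀ i : ℕ,
      C(Quot (fun x y : ↥(Metric.sphere (0 : EuclideanSpace ℂ (Fin (n (i+1)))) 1) =>
            ∃ j : ℕ, (y : EuclideanSpace ℂ (Fin (n (i+1)))) =
              Complex.exp (2 * (Real.pi : ℂ) * Complex.I / ((p ^ k (i+1) : ℕ) : ℂ)) ^ j •
                (x : EuclideanSpace ℂ (Fin (n (i+1))))),
        Quot (fun x y : ↥(Metric.sphere (0 : EuclideanSpace ℂ (Fin (n i))) 1) =>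
            ∃ j : ℕ, (y : EuclideanSpace ℂ (Fin (n i))) =
              Complex.exp (2 * (Real.pi : ℂ) * Complex.I / ((p ^ k i : ℕ) : ℂ)) ^ j •
                (x : EuclideanSpace ℂ (Fin (n i))))))
    (g : ∀ i j : ℕ, C(↥(Metric.sphere (0 : EuclideanSpace ℂ (Fin (n (i+j)))) 1),
                       ↥(Metric.sphere (0 : EuclideanSpace ℂ (Fin (n i))) 1))),
    Filter.Tendsto k Filter.atTop Filter.atTop ∧
    (∀ i, p ^ (k i - k 0) < n i) ∧
    (∀ i x, q i (Quot.mk _ x) = Quot.mk _ (f i x)) ∧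
    (∀ i x (δ : Path (q i x) (q i x)), ∃ γ : Path x x,
        (γ.map (q i).continuous).Homotopic δ) ∧
    (∀ i, g i 0 = ContinuousMap.id _) ∧
    (∀ i j, g i (j+1) = (g i j).comp (f (i+j))) ∧
    (∀ i, ∃ j, ∃ y, (g i j).Homotopic (ContinuousMap.const _ y)) :=
  assembly fun p hp hp2 => keyMaps_of_thmS (by have := hp.two_le; omega) (H p hp hp2)

end Pool.Agent.H.MP_5f9601_gt
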